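import Pool.Agent.helper68.AM.SpecX

/-! # XR: change of basis -/

set_option autoImplicit false

namespace AM

open Pool.Agent.helper72.Sq Matrix

theorem XR_orb {g : F2} {φ : MulAut F2} (hφ : φ ∈ MCG) : orb (φ g) = orb g := by
  ext c
  constructor
  · rintro ⟨ψ, hψ, rfl⟩
    exact ⟨ψ * φ, MCG.mul_mem hψ hφ, by rw [MulAut.mul_apply]⟩
  · rintro ⟨ψ, hψ, rfl⟩
    refine ⟨ψ * φ⁻¹, MCG.mul_mem hψ (MCG.inv_mem hφ), ?_⟩
    rw [← MulAut.mul_apply, inv_mul_cancel_right]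

theorem XR : XR_stmt := by
  intro ρ γ q θ hθ h
  constructor
  · obtain ⟨C, hC⟩ := h
    refine ⟨C, fun φ hφ => ?_⟩
    have h1 := hC (φ * θ⁻¹) (MCG.mul_mem hφ (MCG.inv_mem hθ))
    have h2 : ∀ g : F2, (φ * θ⁻¹) (θ g) = φ g := by
      intro g
      rw [← MulAut.mul_apply, inv_mul_cancel_right]
    rw [h2, h2, MulAut.mul_apply] at h1
    exact h1
  · intro hs
    have h1 : orb (θ⁻¹ γ) = orb γ := XR_orb (MCG.inv_mem hθ)
    unfold SqrtLaw at hs ⊢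
    rw [h1] at hs
    exact hs

end AM
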