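import Pool.Agent.helper68.AM.SpecX

/-! # XT: the trace of words with four syllables -/

set_option autoImplicit false

namespace AM

open Pool.Agent.helper72.Sq Matrix

theorem XT_CH (Z A : SpecialLinearGroup (Fin 2) ℝ) :
    tr (Z * A * A) = tr A * tr (Z * A) - tr Z := by
  have hd := sl2_det A
  unfold tr
  simp only [sl2_mul]
  linear_combination (-(Z 0 0 + Z 1 1)) * hd

theorem XT_CH' (X Y A : SpecialLinearGroup (Fin 2) ℝ) :
    tr (X * (A * A) * Y) = tr A * tr (X * A * Y) - tr (X * Y) := by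
  have h1 : tr (X * (A * A) * Y) = tr (Y * X * A * A) := by
    rw [tr_comm]; simp only [mul_assoc]
  have h2 : tr (X * A * Y) = tr (Y * X * A) := by rw [tr_comm]; simp only [mul_assoc]
  have h3 : tr (X * Y) = tr (Y * X) := tr_comm _ _
  rw [h1, h2, h3, XT_CH]

theorem XT_pow (X Y A : SpecialLinearGroup (Fin 2) ℝ) : ∀ k : ℕ,
    tr (X * A ^ (k + 1) * Y) = sn (tr A) (k + 1) * tr (X * A * Y) - sn (tr A) k * tr (X * Y)
  | 0 => by simp [sn]
  | 1 => by
    have h := XT_CH' X Y A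
    have e : A ^ (1 + 1) = A * A := by rw [pow_succ, pow_one]
    rw [e, h]
    simp [sn]
  | k + 2 => by
    have h0 := XT_pow X Y A k
    have h1 := XT_pow X Y A (k + 1)
    have h := XT_CH' (X * A ^ (k + 1)) Y A
    have e : X * A ^ (k + 2 + 1) * Y = X * A ^ (k + 1) * (A * A) * Y := by
      rw [pow_succ, pow_succ]; simp only [mul_assoc]
    have e2 : X * A ^ (k + 1) * A * Y = X * A ^ (k + 1 + 1) * Y := by
      rw [pow_succ _ (k + 1)]; simp only [mul_assoc]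
    rw [e, h, e2, h1, h0]
    have r1 : sn (tr A) (k + 2 + 1) = tr A * sn (tr A) (k + 2) - sn (tr A) (k + 1) := rfl
    have r2 : sn (tr A) (k + 1 + 1) = tr A * sn (tr A) (k + 1) - sn (tr A) k := rfl
    have r3 : sn (tr A) (k + 2) = tr A * sn (tr A) (k + 1) - sn (tr A) k := rfl
    rw [r1, r2]
    ring

theorem XT_pow_inv (X Y A : SpecialLinearGroup (Fin 2) ℝ) (k : ℕ) :
    tr (X * (A ^ (k + 1))⁻¹ * Y) =
      sn (tr A) (k + 1) * tr (X * A⁻¹ * Y) - sn (tr A) k * tr (X * Y) := by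
  rw [← inv_pow, XT_pow, tr_inv]

theorem XT_one : tr (1 : SpecialLinearGroup (Fin 2) ℝ) = 2 := by
  unfold tr
  simp
  norm_num

theorem XT (hXC : XC_stmt) (hXQ : XQ_stmt) : XT_stmt := by
  intro A B τ hA hB hτ hτ2 n1 m1 n2 m2 hn1 hm1 hn2 hm2
  obtain ⟨a, rfl⟩ : ∃ a, n1 = a + 1 := ⟨n1 - 1, by omega⟩
  obtain ⟨b, rfl⟩ : ∃ a, m1 = a + 1 := ⟨m1 - 1, by omega⟩
  obtain ⟨c, rfl⟩ : ∃ a, n2 = a + 1 := ⟨n2 - 1, by omega⟩
  obtain ⟨d, rfl⟩ : ∃ a, m2 = a + 1 := ⟨m2 - 1, by omega⟩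
  -- Chebyshev numbers
  have hge : ∀ x : ℝ, 2 ≤ x → ∀ n, 1 ≤ sn x (n + 1) := fun x hx n => (hXC x (n + 1) hx (by omega)).1
  have hmono : ∀ x : ℝ, 2 ≤ x → ∀ m n, m ≤ n → sn x (m + 1) ≤ sn x (n + 1) := by
    intro x hx m n hmn
    induction hmn with
    | refl => exact le_rfl
    | step _ ih => exact ih.trans (hXC x _ hx (by omega)).2.2.1
  have hnn : ∀ x : ℝ, 2 ≤ x → ∀ n, 0 ≤ sn x n := by
    intro x hx n
    cases n with
    | zero => exact le_rfl
    | succ n => linarith [hge x hx n]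
  have hx2 : ∀ x : ℝ, 2 ≤ x → ∀ n, x * sn x n ≤ 2 * sn x (n + 1) := by
    intro x hx n
    cases n with
    | zero => simp [sn]
    | succ n => exact (hXC x (n + 1) hx (by omega)).2.2.2
  -- traces of powers
  have htp : ∀ (M : SpecialLinearGroup (Fin 2) ℝ), 2 ≤ tr M → ∀ k,
      tr (M ^ (k + 1)) ≤ tr M * sn (tr M) (k + 1) := by
    intro M hM k
    have h := XT_pow 1 1 M k
    rw [one_mul, mul_one, one_mul, mul_one, one_mul, XT_one] at h
    rw [h]
    have := hnn (tr M) hM k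
    linarith
  have htp2 : ∀ (M : SpecialLinearGroup (Fin 2) ℝ), 2 ≤ tr M → ∀ k,
      tr (M ^ k) ≤ 2 * sn (tr M) (k + 1) := by
    intro M hM k
    cases k with
    | zero => simp [sn, XT_one]
    | succ k => exact (htp M hM k).trans (hx2 _ hM _)
  have hq := hXQ A B hA hB (by rw [hτ]; exact hτ2)
  have hBpos : ∀ j, 0 ≤ tr (B ^ j) := fun j => by
    have := (hq 0 j).1
    rw [pow_zero, one_mul] at this
    exact this.le
  have hApos : ∀ j, 0 ≤ tr (A ^ j) := fun j => by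
    have := (hq j 0).1
    rw [pow_zero, mul_one] at this
    exact this.le
  set x := tr A with hxdef
  set y := tr B with hydef
  -- first step
  have e1 : tr (A ^ (a + 1) * B ^ (b + 1) * (A ^ (c + 1))⁻¹ * (B ^ (d + 1))⁻¹) =
      sn x (a + 1) * tr (A * B ^ (b + 1) * (A ^ (c + 1))⁻¹ * (B ^ (d + 1))⁻¹) -
      sn x a * tr (B ^ (b + 1) * (A ^ (c + 1))⁻¹ * (B ^ (d + 1))⁻¹) := by
    have h := XT_pow 1 (B ^ (b + 1) * (A ^ (c + 1))⁻¹ * (B ^ (d + 1))⁻¹) A a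
    simp only [one_mul, ← mul_assoc] at h
    exact h
  have e2 : tr (A * B ^ (b + 1) * (A ^ (c + 1))⁻¹ * (B ^ (d + 1))⁻¹) =
      sn y (b + 1) * tr (A * B * (A ^ (c + 1))⁻¹ * (B ^ (d + 1))⁻¹) -
      sn y b * tr (A * (A ^ (c + 1))⁻¹ * (B ^ (d + 1))⁻¹) := by
    have h := XT_pow A ((A ^ (c + 1))⁻¹ * (B ^ (d + 1))⁻¹) B b
    simp only [← mul_assoc] at h
    exact h
  have e3 : tr (A * B * (A ^ (c + 1))⁻¹ * (B ^ (d + 1))⁻¹) =
      sn x (c + 1) * tr (A * B * A⁻¹ * (B ^ (d + 1))⁻¹) -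
      sn x c * tr (A * B * (B ^ (d + 1))⁻¹) := XT_pow_inv (A * B) ((B ^ (d + 1))⁻¹) A c
  have e4 : tr (A * B * A⁻¹ * (B ^ (d + 1))⁻¹) = sn y (d + 1) * τ - sn y d * y := by
    have h := XT_pow_inv (A * B * A⁻¹) 1 B d
    rw [mul_one, mul_one, mul_one, hτ, tr_conj] at h
    exact h
  -- the positive terms
  have p1 : 0 ≤ tr (B ^ (b + 1) * (A ^ (c + 1))⁻¹ * (B ^ (d + 1))⁻¹) ∧
      tr (B ^ (b + 1) * (A ^ (c + 1))⁻¹ * (B ^ (d + 1))⁻¹) ≤
        (x * sn x (c + 1)) * (2 * (sn y (b + 1) * sn y (d + 1))) := by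
    have hc0 := htp A hA c
    have hxc : 0 ≤ x * sn x (c + 1) := mul_nonneg (by linarith) (hnn x hA _)
    have hb1 := hge y hB b
    have hd1 := hge y hB d
    rcases le_total d b with hdb | hbd
    · obtain ⟨j, rfl⟩ := Nat.exists_eq_add_of_le hdb
      have h1 : tr (B ^ (d + j + 1) * (A ^ (c + 1))⁻¹ * (B ^ (d + 1))⁻¹) =
          tr ((A ^ (c + 1))⁻¹ * B ^ j) := by
        have e : B ^ (d + j + 1) = B ^ (d + 1) * B ^ j := by rw [← pow_add]; congr 1; omega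
        rw [e, tr_comm, ← mul_assoc, ← mul_assoc, inv_mul_cancel, one_mul, tr_comm]
      rw [h1]
      obtain ⟨-, h2, -, h3⟩ := hq (c + 1) j
      refine ⟨h2.le, h3.trans ?_⟩
      have h4 : tr (B ^ j) ≤ 2 * (sn y (d + j + 1) * sn y (d + 1)) := by
        have h5 := htp2 B hB j
        have h6 := hmono y hB j (d + j) (by omega)
        nlinarith
      exact mul_le_mul hc0 h4 (hBpos j) hxc
    · obtain ⟨j, rfl⟩ := Nat.exists_eq_add_of_le hbd
      have h1 : tr (B ^ (b + 1) * (A ^ (c + 1))⁻¹ * (B ^ (b + j + 1))⁻¹) =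
          tr (A ^ (c + 1) * B ^ j) := by
        have e : B ^ (b + j + 1) = B ^ j * B ^ (b + 1) := by rw [← pow_add]; congr 1; omega
        rw [e, _root_.mul_inv_rev, mul_assoc, tr_comm, ← tr_inv, tr_comm (A ^ (c + 1))]
        congr 1
        group
      rw [h1]
      obtain ⟨h2, -, h3, -⟩ := hq (c + 1) j
      refine ⟨h2.le, h3.trans ?_⟩
      have h4 : tr (B ^ j) ≤ 2 * (sn y (b + 1) * sn y (b + j + 1)) := by
        have h5 := htp2 B hB j
        have h6 := hmono y hB j (b + j) (by omega)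
        nlinarith
      exact mul_le_mul hc0 h4 (hBpos j) hxc
  have p2 : 0 ≤ tr (A * (A ^ (c + 1))⁻¹ * (B ^ (d + 1))⁻¹) ∧
      tr (A * (A ^ (c + 1))⁻¹ * (B ^ (d + 1))⁻¹) ≤ (2 * sn x (c + 1)) * (y * sn y (d + 1)) := by
    have h1 : tr (A * (A ^ (c + 1))⁻¹ * (B ^ (d + 1))⁻¹) = tr (A ^ c * B ^ (d + 1)) := by
      have e : A ^ (c + 1) = A ^ c * A := pow_succ _ _
      rw [e, ← tr_inv, tr_comm (A ^ c)]
      congr 1
      group
    rw [h1]
    obtain ⟨h2, -, h3, -⟩ := hq c (d + 1)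
    refine ⟨h2.le, h3.trans ?_⟩
    exact mul_le_mul (htp2 A hA c) (htp B hB d) (hBpos _) (by linarith [hnn x hA (c + 1)])
  have p3 : 0 ≤ tr (A * B * (B ^ (d + 1))⁻¹) ∧
      tr (A * B * (B ^ (d + 1))⁻¹) ≤ x * (2 * sn y (d + 1)) := by
    have h1 : tr (A * B * (B ^ (d + 1))⁻¹) = tr ((A ^ 1)⁻¹ * B ^ d) := by
      have e : B ^ (d + 1) = B ^ d * B := pow_succ _ _
      rw [e, ← tr_inv, tr_comm ((A ^ 1)⁻¹)]
      congr 1
      group
    rw [h1]
    obtain ⟨-, h2, -, h3⟩ := hq 1 d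
    refine ⟨h2.le, h3.trans ?_⟩
    rw [pow_one]
    exact mul_le_mul le_rfl (htp2 B hB d) (hBpos _) (by linarith)
  -- abbreviations
  set T1 := tr (B ^ (b + 1) * (A ^ (c + 1))⁻¹ * (B ^ (d + 1))⁻¹)
  set T2 := tr (A * (A ^ (c + 1))⁻¹ * (B ^ (d + 1))⁻¹)
  set T3 := tr (A * B * (B ^ (d + 1))⁻¹)
  have sa := hge x hA a
  have sb := hge y hB b
  have sc := hge x hA c
  have sd := hge y hB d
  have sa0 := hnn x hA a
  have sb0 := hnn y hB b
  have sc0 := hnn x hA c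
  have sd0 := hnn y hB d
  have qa := hx2 x hA a
  have qb := hx2 y hB b
  have qc := hx2 x hA c
  have qd := hx2 y hB d
  rw [e1, e2, e3, e4]
  generalize sn x (a + 1) = Sa at *
  generalize sn y (b + 1) = Sb at *
  generalize sn x (c + 1) = Sc at *
  generalize sn y (d + 1) = Sd at *
  generalize sn x a = za at *
  generalize sn y b = zb at *
  generalize sn x c = zc at *
  generalize sn y d = zd at *
  have hfull : Sa * (Sb * (Sc * (Sd * τ - zd * y) - zc * T3) - zb * T2) - za * T1 =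
      τ * (Sa * Sb * Sc * Sd) - (Sa * Sb * Sc * (zd * y) + Sa * Sb * (zc * T3) + Sa * (zb * T2) +
        za * T1) := by ring
  rw [hfull]
  have hSa : 0 ≤ Sa := by linarith
  have hSb : 0 ≤ Sb := by linarith
  have hSc : 0 ≤ Sc := by linarith
  have hSd : 0 ≤ Sd := by linarith
  have hx0 : 0 ≤ x := by linarith
  have hy0 : 0 ≤ y := by linarith
  have k1 : 0 ≤ Sa * Sb * Sc * (zd * y) := by positivity
  have k2 : 0 ≤ Sa * Sb * (zc * T3) := mul_nonneg (by positivity) (mul_nonneg sc0 p3.1)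
  have k3 : 0 ≤ Sa * (zb * T2) := mul_nonneg hSa (mul_nonneg sb0 p2.1)
  have k4 : 0 ≤ za * T1 := mul_nonneg sa0 p1.1
  constructor
  · linarith
  · have u1 : Sa * Sb * Sc * (zd * y) ≤ 2 * (Sa * Sb * Sc * Sd) := by
      have : Sa * Sb * Sc * (zd * y) ≤ Sa * Sb * Sc * (2 * Sd) :=
        mul_le_mul_of_nonneg_left (by linarith) (by positivity)
      linarith
    have u2 : Sa * Sb * (zc * T3) ≤ 4 * (Sa * Sb * Sc * Sd) := by
      have h1 : zc * T3 ≤ zc * (x * (2 * Sd)) := mul_le_mul_of_nonneg_left p3.2 sc0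
      have h2 : zc * (x * (2 * Sd)) ≤ (2 * Sc) * (2 * Sd) := by
        have : (x * zc) * (2 * Sd) ≤ (2 * Sc) * (2 * Sd) :=
          mul_le_mul_of_nonneg_right qc (by linarith)
        linarith
      have : Sa * Sb * (zc * T3) ≤ Sa * Sb * ((2 * Sc) * (2 * Sd)) :=
        mul_le_mul_of_nonneg_left (h1.trans h2) (by positivity)
      linarith
    have u3 : Sa * (zb * T2) ≤ 4 * (Sa * Sb * Sc * Sd) := by
      have h1 : zb * T2 ≤ zb * ((2 * Sc) * (y * Sd)) := mul_le_mul_of_nonneg_left p2.2 sb0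
      have h2 : zb * ((2 * Sc) * (y * Sd)) ≤ (2 * Sb) * (2 * Sc * Sd) := by
        have : (y * zb) * (2 * Sc * Sd) ≤ (2 * Sb) * (2 * Sc * Sd) :=
          mul_le_mul_of_nonneg_right qb (by positivity)
        linarith
      have : Sa * (zb * T2) ≤ Sa * ((2 * Sb) * (2 * Sc * Sd)) :=
        mul_le_mul_of_nonneg_left (h1.trans h2) (by positivity)
      linarith
    have u4 : za * T1 ≤ 4 * (Sa * Sb * Sc * Sd) := by
      have h1 : za * T1 ≤ za * ((x * Sc) * (2 * (Sb * Sd))) := mul_le_mul_of_nonneg_left p1.2 sa0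
      have h2 : (x * za) * (Sc * (2 * (Sb * Sd))) ≤ (2 * Sa) * (Sc * (2 * (Sb * Sd))) :=
        mul_le_mul_of_nonneg_right qa (by positivity)
      linarith
    have k5 : 0 ≤ Sa * Sb * Sc * Sd := by positivity
    linarith

end AM
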