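import Mathlib
import Pool.Agent.helper68.AM.Spec

/-! Project sl (AM), module RAM: the identity of Ramaré. -/

set_option autoImplicit false

namespace AM

open Pool.Agent.helper72.Sq Finset

lemma RAM_reindex (p N1 N2 : ℕ) (hp : 0 < p) (g : ℕ → ℂ) :
    ∑ n ∈ (Ioc N1 N2).filter (fun n => p ∣ n), g n =
      ∑ m ∈ (range (N2 + 1)).filter (fun m => N1 < p * m ∧ p * m ≤ N2), g (p * m) := by
  symm
  apply Finset.sum_nbij (fun m => p * m)
  · intro m hm
    simp only [mem_filter, mem_range, mem_Ioc] at hm ⊢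
    exact ⟨⟨hm.2.1, hm.2.2⟩, dvd_mul_right _ _⟩
  · intro m _ m' _ h
    exact Nat.eq_of_mul_eq_mul_left hp h
  · intro n hn
    simp only [coe_filter, mem_Ioc, Set.mem_setOf_eq] at hn
    obtain ⟨⟨h1, h2⟩, m, rfl⟩ := hn
    refine ⟨m, ?_, rfl⟩
    simp only [coe_filter, mem_range, Set.mem_setOf_eq]
    refine ⟨?_, h1, h2⟩
    have : m ≤ p * m := Nat.le_mul_of_pos_left m hp
    omega
  · intro m _
    rfl

/-- number of primes of `W` dividing `n` -/
def RAM_w (W : Finset ℕ) (n : ℕ) : ℕ := (W.filter (fun q => q ∣ n)).card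

lemma RAM_w_mul (W : Finset ℕ) (hW : ∀ p ∈ W, p.Prime) (p m : ℕ) (hp : p ∈ W) (hpm : ¬ p ∣ m) :
    RAM_w W (p * m) = RAM_w W m + 1 := by
  unfold RAM_w
  have h : W.filter (fun q => q ∣ p * m) = insert p (W.filter (fun q => q ∣ m)) := by
    ext q
    simp only [mem_filter, mem_insert]
    constructor
    · rintro ⟨hq, hd⟩
      rcases (Nat.Prime.dvd_mul (hW q hq)).1 hd with h1 | h1
      · left
        exact (Nat.prime_dvd_prime_iff_eq (hW q hq) (hW p hp)).1 h1
      · right
        exact ⟨hq, h1⟩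
    · rintro (h1 | ⟨h1, h2⟩)
      · subst h1
        exact ⟨hp, dvd_mul_right _ _⟩
      · exact ⟨h1, h2.mul_left p⟩
  rw [h, card_insert_of_notMem]
  simp only [mem_filter, not_and]
  exact fun _ => hpm

lemma RAM_mu_abs (n : ℕ) : |mu n| ≤ 1 := by
  unfold mu
  have h := ArithmeticFunction.abs_moebius_le_one (n := n)
  exact_mod_cast h

lemma RAM_mu_mul (p m : ℕ) (hp : p.Prime) (hpm : ¬ p ∣ m) : mu (p * m) = -mu m := by
  unfold mu
  have hc : Nat.Coprime p m := (Nat.Prime.coprime_iff_not_dvd hp).2 hpm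
  rw [ArithmeticFunction.isMultiplicative_moebius.map_mul_of_coprime hc,
    ArithmeticFunction.moebius_apply_prime hp]
  push_cast
  ring

lemma RAM_mu_sq (p m : ℕ) (hp : p.Prime) (hpm : p ∣ m) : mu (p * m) = 0 := by
  unfold mu
  have h : ¬ Squarefree (p * m) := by
    intro h
    obtain ⟨l, rfl⟩ := hpm
    have h2 : p * p ∣ p * (p * l) := ⟨l, by ring⟩
    have := h p h2
    exact hp.one_lt.ne' (Nat.isUnit_iff.1 this)
  rw [ArithmeticFunction.moebius_eq_zero_of_not_squarefree h]
  simp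

/-- pairs with `p ∣ m` -/
lemma RAM_count (p N1 N2 : ℕ) (hp : 0 < p) :
    ((((range (N2 + 1)).filter (fun m => N1 < p * m ∧ p * m ≤ N2)).filter (fun m => p ∣ m)).card : ℝ) ≤
      (N2 : ℝ) / (p : ℝ) ^ 2 := by
  have h1 : (((range (N2 + 1)).filter (fun m => N1 < p * m ∧ p * m ≤ N2)).filter (fun m => p ∣ m)) ⊆
      (Icc 1 (N2 / p ^ 2)).image (fun l => p * l) := by
    intro m hm
    simp only [mem_filter, mem_range, mem_image, mem_Icc] at hm ⊢
    obtain ⟨⟨_, h2, h3⟩, l, rfl⟩ := hm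
    refine ⟨l, ⟨?_, ?_⟩, rfl⟩
    · rcases Nat.eq_zero_or_pos l with h | h
      · subst h; simp at h2
      · exact h
    · rw [Nat.le_div_iff_mul_le (by positivity)]
      calc l * p ^ 2 = p * (p * l) := by ring
        _ ≤ N2 := h3
  have h2 : (((range (N2 + 1)).filter (fun m => N1 < p * m ∧ p * m ≤ N2)).filter (fun m => p ∣ m)).card ≤
      N2 / p ^ 2 := by
    refine (card_le_card h1).trans (card_image_le.trans ?_)
    simp
  calc ((((range (N2 + 1)).filter (fun m => N1 < p * m ∧ p * m ≤ N2)).filter (fun m => p ∣ m)).card : ℝ)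
      ≤ ((N2 / p ^ 2 : ℕ) : ℝ) := by exact_mod_cast h2
    _ ≤ (N2 : ℝ) / ((p ^ 2 : ℕ) : ℝ) := Nat.cast_div_le
    _ = _ := by push_cast; ring

theorem RAM : RAM_stmt := by
  intro W N1 N2 F hW hF
  -- the second sum, term by term
  set c : ℕ → ℂ := fun m => ((mu m / ((W.filter (fun q => q ∣ m)).card + 1) : ℝ) : ℂ) with hc
  set h : ℕ → ℂ := fun n => ((mu n / (RAM_w W n : ℝ) : ℝ) : ℂ) * F n with hh
  have hS1 : ∑ n ∈ Ioc N1 N2, ((mu n : ℝ) : ℂ) * F n =
      ∑ n ∈ (Ioc N1 N2).filter (fun n => ∀ p ∈ W, ¬ p ∣ n), ((mu n : ℝ) : ℂ) * F n +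
      ∑ p ∈ W, ∑ m ∈ (range (N2 + 1)).filter (fun m => N1 < p * m ∧ p * m ≤ N2), h (p * m) := by
    have h1 : ∀ n, ((mu n : ℝ) : ℂ) * F n = (if (∀ p ∈ W, ¬ p ∣ n) then ((mu n : ℝ) : ℂ) * F n else 0) +
        ∑ p ∈ W, if p ∣ n then h n else 0 := by
      intro n
      rw [← Finset.sum_filter, Finset.sum_const, nsmul_eq_mul]
      split_ifs with hn
      · have h0 : W.filter (fun q => q ∣ n) = ∅ := by
          rw [Finset.filter_eq_empty_iff]
          exact hn
        rw [h0]
        simp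
      · have hpos : 0 < RAM_w W n := by
          push Not at hn
          obtain ⟨p, hp, hd⟩ := hn
          exact card_pos.2 ⟨p, mem_filter.2 ⟨hp, hd⟩⟩
        have hne : ((RAM_w W n : ℝ) : ℂ) ≠ 0 := by
          have : (RAM_w W n : ℝ) ≠ 0 := by positivity
          exact_mod_cast this
        rw [zero_add]
        have e : (((W.filter (fun q => q ∣ n)).card : ℕ) : ℂ) = ((RAM_w W n : ℝ) : ℂ) := by
          unfold RAM_w; push_cast; rfl
        rw [e]
        simp only [hh]
        push_cast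
        push_cast at hne
        field_simp
    calc ∑ n ∈ Ioc N1 N2, ((mu n : ℝ) : ℂ) * F n
        = ∑ n ∈ Ioc N1 N2, ((if (∀ p ∈ W, ¬ p ∣ n) then ((mu n : ℝ) : ℂ) * F n else 0) +
          ∑ p ∈ W, if p ∣ n then h n else 0) := sum_congr rfl (fun n _ => h1 n)
      _ = _ := by
        rw [sum_add_distrib, ← Finset.sum_filter, Finset.sum_comm]
        congr 1
        apply sum_congr rfl
        intro p hp
        rw [← Finset.sum_filter, RAM_reindex p N1 N2 (hW p hp).pos]
  rw [hS1, add_assoc, ← sum_add_distrib]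
  refine (norm_add_le _ _).trans (add_le_add ?_ ?_)
  · refine (norm_sum_le _ _).trans ?_
    refine (sum_le_sum (g := fun _ => (1 : ℝ)) ?_).trans ?_
    · intro n _
      rw [norm_mul, Complex.norm_real]
      calc ‖mu n‖ * ‖F n‖ ≤ 1 * 1 := mul_le_mul (RAM_mu_abs n) (hF n) (norm_nonneg _) zero_le_one
        _ = 1 := one_mul 1
    · simp
  · refine (norm_sum_le _ _).trans (sum_le_sum ?_)
    intro p hp
    have hpp := hW p hp
    rw [← sum_add_distrib]
    have hterm : ∀ m ∈ (range (N2 + 1)).filter (fun m => N1 < p * m ∧ p * m ≤ N2),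
        ‖h (p * m) + c m * F (p * m)‖ ≤ if p ∣ m then (1 : ℝ) else 0 := by
      intro m _
      split_ifs with hd
      · have h0 : h (p * m) = 0 := by
          simp only [hh]
          rw [RAM_mu_sq p m hpp hd]
          simp
        rw [h0, zero_add, norm_mul]
        have hc1 : ‖c m‖ ≤ 1 := by
          simp only [hc]
          rw [Complex.norm_real, Real.norm_eq_abs, abs_div]
          have hpos : (0 : ℝ) < ((W.filter (fun q => q ∣ m)).card : ℝ) + 1 := by positivity
          rw [abs_of_pos hpos, div_le_one hpos]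
          have := RAM_mu_abs m
          have h2 : (0 : ℝ) ≤ ((W.filter (fun q => q ∣ m)).card : ℝ) := Nat.cast_nonneg _
          linarith
        calc ‖c m‖ * ‖F (p * m)‖ ≤ 1 * 1 := mul_le_mul hc1 (hF _) (norm_nonneg _) zero_le_one
          _ = 1 := one_mul 1
      · have h0 : h (p * m) + c m * F (p * m) = 0 := by
          simp only [hh, hc]
          rw [RAM_mu_mul p m hpp hd, RAM_w_mul W hW p m hp hd]
          unfold RAM_w
          push_cast
          ring
        rw [h0, norm_zero]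
    refine (norm_sum_le _ _).trans ((sum_le_sum hterm).trans ?_)
    rw [← Finset.sum_filter, sum_const, nsmul_eq_mul, mul_one]
    exact RAM_count p N1 N2 hpp.pos

end AM
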