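import Mathlib
import Pool.Agent.helper68.AM.Spec
import Pool.Agent.helper72.SqC

/-! Project sl (AM), module SB: one block of length `s` of the sawtooth. -/

set_option autoImplicit false

namespace AM

open Pool.Agent.helper72.Sq Finset

/-- one-sided comparison of the block with the rational slope -/
lemma SB_aux (s : ℕ) (hs : 1 ≤ s) (a : ℤ) (hcop : IsCoprime a (s : ℤ)) (θ y ε : ℝ)
    (hθ : (s : ℝ) * |θ - a / s| ≤ ε) :
    (s - 1) / 2 + Int.fract (s * (y + ε)) - 2 * s * ε ≤ ∑ i ∈ range s, Int.fract (y - i * θ) ∧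
    ∑ i ∈ range s, Int.fract (y - i * θ) ≤ (s - 1) / 2 + Int.fract (s * (y - ε)) + 2 * s * ε := by
  have hdev : ∀ j ∈ range s, |j * θ - j * (a / s : ℝ)| ≤ ε := by
    intro j hj
    have hj' : (j : ℝ) ≤ s := by
      have := mem_range.1 hj
      exact_mod_cast this.le
    rw [← mul_sub, abs_mul, abs_of_nonneg (Nat.cast_nonneg j)]
    exact (mul_le_mul_of_nonneg_right hj' (abs_nonneg _)).trans hθ
  have hup : ∑ j ∈ range s, Int.fract (y - j * θ) ≤
      ∑ j ∈ range s, (Int.fract ((y - ε) - j * (a / s : ℝ)) + 2 * ε) := by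
    apply sum_le_sum
    intro j hj
    have h1 := abs_le.1 (hdev j hj)
    have h2 : ⌊(y - ε) - j * (a / s : ℝ)⌋ ≤ ⌊y - j * θ⌋ := Int.floor_le_floor (by linarith)
    have h3 : ((⌊(y - ε) - j * (a / s : ℝ)⌋ : ℤ) : ℝ) ≤ ((⌊y - j * θ⌋ : ℤ) : ℝ) := by
      exact_mod_cast h2
    have e1 := Int.self_sub_floor (y - j * θ)
    have e2 := Int.self_sub_floor ((y - ε) - j * (a / s : ℝ))
    rw [← e1, ← e2]
    linarith [h1.1, h1.2]
  have hlo : ∑ j ∈ range s, (Int.fract ((y + ε) - j * (a / s : ℝ)) - 2 * ε) ≤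
      ∑ j ∈ range s, Int.fract (y - j * θ) := by
    apply sum_le_sum
    intro j hj
    have h1 := abs_le.1 (hdev j hj)
    have h2 : ⌊y - j * θ⌋ ≤ ⌊(y + ε) - j * (a / s : ℝ)⌋ := Int.floor_le_floor (by linarith)
    have h3 : ((⌊y - j * θ⌋ : ℤ) : ℝ) ≤ ((⌊(y + ε) - j * (a / s : ℝ)⌋ : ℤ) : ℝ) := by
      exact_mod_cast h2
    have e1 := Int.self_sub_floor (y - j * θ)
    have e2 := Int.self_sub_floor ((y + ε) - j * (a / s : ℝ))
    rw [← e1, ← e2]
    linarith [h1.1, h1.2]
  rw [sum_add_distrib, sum_fract_rat s hs a hcop] at hup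
  rw [sum_sub_distrib, sum_fract_rat s hs a hcop] at hlo
  simp only [sum_const, card_range, nsmul_eq_mul] at hup hlo
  constructor <;> linarith

/-- away from the integers a small shift does not change the integer part -/
lemma SB_shift (x e : ℝ) (he : 0 ≤ e) (h : e < nrm x) :
    Int.fract (x - e) = Int.fract x - e ∧ Int.fract (x + e) = Int.fract x + e := by
  have h0 := Int.fract_nonneg x
  have h1 : nrm x ≤ Int.fract x := by
    have := round_le x ⌊x⌋
    unfold nrm
    refine this.trans (le_of_eq ?_)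
    rw [Int.self_sub_floor, abs_of_nonneg h0]
  have h2 : nrm x ≤ 1 - Int.fract x := by
    have := round_le x (⌊x⌋ + 1)
    unfold nrm
    refine this.trans (le_of_eq ?_)
    push_cast
    have e1 : x - ((⌊x⌋ : ℝ) + 1) = Int.fract x - 1 := by
      rw [← Int.self_sub_floor x]; ring
    rw [e1, abs_of_nonpos (by linarith [Int.fract_lt_one x])]
    ring
  have h3 := Int.self_sub_floor x
  constructor
  · rw [Int.fract_eq_iff]
    refine ⟨by linarith, by linarith, ⌊x⌋, ?_⟩
    rw [← h3]; ring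
  · rw [Int.fract_eq_iff]
    refine ⟨by linarith, by linarith, ⌊x⌋, ?_⟩
    rw [← h3]; ring

theorem SB : SB_stmt := by
  intro s a θ y ε hs hcop hε hθ
  obtain ⟨hlo, hup⟩ := SB_aux s hs a hcop θ y ε hθ
  have hs0 : (0 : ℝ) ≤ s := Nat.cast_nonneg s
  have hse : 0 ≤ (s : ℝ) * ε := mul_nonneg hs0 hε
  have hsum : ∑ i ∈ range s, ps (y - i * θ) = ∑ i ∈ range s, Int.fract (y - i * θ) - s / 2 := by
    unfold ps
    rw [sum_sub_distrib]
    simp only [sum_const, card_range, nsmul_eq_mul]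
    ring
  rw [hsum]
  have e1 : (s : ℝ) * (y - ε) = s * y - s * ε := by ring
  have e2 : (s : ℝ) * (y + ε) = s * y + s * ε := by ring
  rw [e1] at hup
  rw [e2] at hlo
  unfold ps
  split_ifs with h
  · have a1 := Int.fract_lt_one ((s : ℝ) * y - s * ε)
    have a2 := Int.fract_nonneg ((s : ℝ) * y)
    have a3 := Int.fract_nonneg ((s : ℝ) * y + s * ε)
    have a4 := Int.fract_lt_one ((s : ℝ) * y)
    rw [abs_le]
    constructor <;> nlinarith
  · push Not at h
    obtain ⟨b1, b2⟩ := SB_shift _ _ hse h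
    rw [b1] at hup
    rw [b2] at hlo
    rw [abs_le]
    constructor <;> nlinarith

end AM
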